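import Pool.Agent.H87.LE.Base

/-!
# Poincaré-Wirtinger inequality on squares and quantitative compactness
-/

open MeasureTheory Complex Set Filter Topology
open scoped ContDiff Laplacian

namespace Pool.Agent.H20.LE

/-- `M ∫ f² ≤ (∫ f)² + M (∫ α + ∫ β)/2` if `(f z - f z')² ≤ α z + β z'` -/
lemma double_diff {X : Type*} [MeasurableSpace X] {μ : Measure X} [IsFiniteMeasure μ]
    {f α β : X → ℝ} (hf : Integrable f μ) (hf2 : Integrable (fun z => f z ^ 2) μ)
    (hα : Integrable α μ) (hβ : Integrable β μ)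
    (h : ∀ᵐ z ∂μ, ∀ᵐ z' ∂μ, (f z - f z') ^ 2 ≤ α z + β z') :
    μ.real univ * ∫ z, f z ^ 2 ∂μ ≤ (∫ z, f z ∂μ) ^ 2 +
      μ.real univ * ((∫ z, α z ∂μ) + ∫ z, β z ∂μ) / 2 := by
  set M := μ.real univ
  set I := ∫ z, f z ∂μ with hI
  set J := ∫ z, f z ^ 2 ∂μ with hJ
  have h1 : ∀ᵐ z ∂μ, M * f z ^ 2 - 2 * I * f z + J ≤ M * α z + ∫ z', β z' ∂μ := by
    filter_upwards [h] with z hz
    have h2 : ∫ z', (f z - f z') ^ 2 ∂μ = M * f z ^ 2 - 2 * I * f z + J := by
      have h3 : ∀ z', (f z - f z') ^ 2 = (f z ^ 2 - 2 * f z * f z') + f z' ^ 2 := fun z' => by ring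
      simp_rw [h3]
      have hA : Integrable (fun z' => f z ^ 2 - 2 * f z * f z') μ :=
        (integrable_const _).sub (hf.const_mul _)
      rw [integral_add hA hf2,
        integral_sub (integrable_const _) (hf.const_mul _), integral_const, integral_const_mul,
        smul_eq_mul]
      ring
    have h4 : ∫ z', (α z + β z') ∂μ = M * α z + ∫ z', β z' ∂μ := by
      rw [integral_add (integrable_const _) hβ, integral_const, smul_eq_mul]
    rw [← h2, ← h4]
    refine integral_mono_ae ?_ ((integrable_const _).add hβ) hz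
    have h3 : (fun z' => (f z - f z') ^ 2) = fun z' => (f z ^ 2 - 2 * f z * f z') + f z' ^ 2 := by
      funext z'; ring
    rw [h3]
    exact ((integrable_const _).sub (hf.const_mul _)).add hf2
  have h5 : ∫ z, (M * f z ^ 2 - 2 * I * f z + J) ∂μ = M * J - 2 * I * I + M * J := by
    have hA : Integrable (fun z => M * f z ^ 2 - 2 * I * f z) μ :=
      (hf2.const_mul _).sub (hf.const_mul _)
    rw [integral_add hA (integrable_const _),
      integral_sub (hf2.const_mul _) (hf.const_mul _), integral_const, integral_const_mul,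
      integral_const_mul, smul_eq_mul]
  have h6 : ∫ z, (M * α z + ∫ z', β z' ∂μ) ∂μ = M * (∫ z, α z ∂μ) + M * ∫ z', β z' ∂μ := by
    rw [integral_add (hα.const_mul _) (integrable_const _), integral_const, integral_const_mul,
      smul_eq_mul]
  have h7 := integral_mono_ae (((hf2.const_mul M).sub (hf.const_mul (2 * I))).add
    (integrable_const J)) ((hα.const_mul M).add (integrable_const (∫ z', β z' ∂μ))) h1
  simp only [Pi.add_apply, Pi.sub_apply] at h7
  rw [h5, h6] at h7
  linarith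

/-- Cauchy-Schwarz on an interval -/
lemma sq_integral_le {g : ℝ → ℝ} (hg : Continuous g) {a h : ℝ} (hh : 0 < h) :
    (∫ s in a..a + h, |g s|) ^ 2 ≤ h * ∫ s in a..a + h, g s ^ 2 := by
  set I := ∫ s in a..a + h, |g s| with hI
  have hab : a ≤ a + h := by linarith
  have h1 : 0 ≤ ∫ s in a..a + h, (|g s| - I / h) ^ 2 :=
    intervalIntegral.integral_nonneg hab fun _ _ => sq_nonneg _
  have h2 : ∫ s in a..a + h, (|g s| - I / h) ^ 2 =
      (∫ s in a..a + h, g s ^ 2) - 2 * (I / h) * I + h * (I / h) ^ 2 := by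
    have h3 : ∀ s, (|g s| - I / h) ^ 2 = (g s ^ 2 - 2 * (I / h) * |g s|) + (I / h) ^ 2 := by
      intro s
      rw [sub_sq, sq_abs]
      ring
    simp_rw [h3]
    rw [intervalIntegral.integral_add, intervalIntegral.integral_sub,
      intervalIntegral.integral_const_mul, intervalIntegral.integral_const, ← hI]
    · simp
    all_goals exact (Continuous.intervalIntegrable (by fun_prop) _ _)
  rw [h2] at h1
  have h4 : h * (I / h) ^ 2 = I ^ 2 / h := by field_simp
  have h5 : 2 * (I / h) * I = 2 * (I ^ 2 / h) := by field_simp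
  rw [h4, h5] at h1
  have h6 : I ^ 2 / h ≤ ∫ s in a..a + h, g s ^ 2 := by linarith
  rwa [div_le_iff₀ hh, mul_comm] at h6

lemma sq_diff_le {f f' : ℝ → ℝ} (hf : ∀ x, HasDerivAt f (f' x) x) (hc : Continuous f') {a h : ℝ}
    (hh : 0 < h) {x x' : ℝ} (hx : x ∈ Ico a (a + h)) (hx' : x' ∈ Ico a (a + h)) :
    (f x - f x') ^ 2 ≤ h * ∫ s in a..a + h, f' s ^ 2 := by
  refine le_trans ?_ (sq_integral_le hc hh)
  have h1 : f x - f x' = ∫ s in x'..x, f' s :=
    (intervalIntegral.integral_eq_sub_of_hasDerivAt (fun s _ => hf s)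
      (hc.intervalIntegrable _ _)).symm
  have h2 : |f x - f x'| ≤ ∫ s in a..a + h, |f' s| := by
    rw [h1]
    refine (intervalIntegral.norm_integral_le_integral_norm_uIoc (f := f')).trans ?_
    rw [intervalIntegral.integral_of_le (by linarith : a ≤ a + h)]
    refine setIntegral_mono_set ?_ (Eventually.of_forall fun _ => norm_nonneg _) ?_
    · exact (hc.abs).integrableOn_Ioc
    · refine LE.le.eventuallyLE fun s hs => ?_
      rw [uIoc, mem_Ioc] at hs
      exact ⟨lt_of_le_of_lt (le_min hx'.1 hx.1) hs.1,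
        hs.2.trans (max_le hx'.2.le hx.2.le)⟩
  rw [← sq_abs]
  exact pow_le_pow_left₀ (abs_nonneg _) h2 2

/-- half open square -/
def Sq (a b h : ℝ) : Set ℂ := {z | z.re ∈ Ico a (a + h) ∧ z.im ∈ Ico b (b + h)}

lemma sq_eq (a b h : ℝ) : Sq a b h = Complex.measurableEquivRealProd ⁻¹'
    (Ico a (a + h) ×ˢ Ico b (b + h)) := by
  ext z
  simp [Sq, Complex.measurableEquivRealProd]

lemma sq_meas (a b h : ℝ) : MeasurableSet (Sq a b h) := by
  rw [sq_eq]
  exact Complex.measurableEquivRealProd.measurable (measurableSet_Ico.prod measurableSet_Ico)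

lemma sq_bdd (a b h : ℝ) : Bornology.IsBounded (Sq a b h) := by
  rw [isBounded_iff_forall_norm_le]
  refine ⟨(|a| + |a + h|) + (|b| + |b + h|), fun z hz => ?_⟩
  refine (Complex.norm_le_abs_re_add_abs_im z).trans (add_le_add ?_ ?_)
  · exact (abs_le_max_abs_abs hz.1.1 hz.1.2.le).trans
      (max_le_add_of_nonneg (abs_nonneg _) (abs_nonneg _))
  · exact (abs_le_max_abs_abs hz.2.1 hz.2.2.le).trans
      (max_le_add_of_nonneg (abs_nonneg _) (abs_nonneg _))

lemma sq_integrable (a b h : ℝ) {F : ℂ → ℝ} (hF : Continuous F) : IntegrableOn F (Sq a b h) := by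
  obtain ⟨R, hR⟩ := (sq_bdd a b h).subset_closedBall 0
  exact (hF.continuousOn.integrableOn_compact (isCompact_closedBall (0 : ℂ) R)).mono_set hR

lemma sq_fubini (a b : ℝ) {h : ℝ} (hh : 0 < h) {F : ℂ → ℝ} (hF : Continuous F) :
    ∫ z in Sq a b h, F z = ∫ x in a..a + h, ∫ y in b..b + h, F (x + y * I) := by
  have h1 := (Complex.volume_preserving_equiv_real_prod.symm).setIntegral_preimage_emb
    Complex.measurableEquivRealProd.symm.measurableEmbedding F (Sq a b h)
  rw [← h1]
  have h2 : Complex.measurableEquivRealProd.symm ⁻¹' (Sq a b h) =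
      Ico a (a + h) ×ˢ Ico b (b + h) := by
    ext p
    simp [Sq, Complex.measurableEquivRealProd]
  rw [h2]
  have h3 : ∀ p : ℝ × ℝ, Complex.measurableEquivRealProd.symm p = p.1 + p.2 * I := by
    intro p
    apply Complex.ext <;> simp [Complex.measurableEquivRealProd]
  simp_rw [h3]
  have h4 : Continuous fun p : ℝ × ℝ => F (p.1 + p.2 * I) := by fun_prop
  rw [Measure.volume_eq_prod, setIntegral_prod]
  · rw [intervalIntegral.integral_of_le (by linarith : a ≤ a + h), integral_Ico_eq_integral_Ioc]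
    refine setIntegral_congr_fun measurableSet_Ioc fun x _ => ?_
    simp only
    rw [intervalIntegral.integral_of_le (by linarith : b ≤ b + h), integral_Ico_eq_integral_Ioc]
  · have h5 : IntegrableOn (fun p : ℝ × ℝ => F (p.1 + p.2 * I))
        (Icc a (a + h) ×ˢ Icc b (b + h)) (volume.prod volume) :=
      h4.continuousOn.integrableOn_compact (isCompact_Icc.prod isCompact_Icc)
    exact h5.mono_set (Set.prod_mono Ico_subset_Icc_self Ico_subset_Icc_self)

lemma sq_fubini' (a b : ℝ) {h : ℝ} (hh : 0 < h) {F : ℂ → ℝ} (hF : Continuous F) :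
    ∫ z in Sq a b h, F z = ∫ y in b..b + h, ∫ x in a..a + h, F (x + y * I) := by
  have h1 := (Complex.volume_preserving_equiv_real_prod.symm).setIntegral_preimage_emb
    Complex.measurableEquivRealProd.symm.measurableEmbedding F (Sq a b h)
  rw [← h1]
  have h2 : Complex.measurableEquivRealProd.symm ⁻¹' (Sq a b h) =
      Ico a (a + h) ×ˢ Ico b (b + h) := by
    ext p
    simp [Sq, Complex.measurableEquivRealProd]
  rw [h2]
  have h3 : ∀ p : ℝ × ℝ, Complex.measurableEquivRealProd.symm p = p.1 + p.2 * I := by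
    intro p
    apply Complex.ext <;> simp [Complex.measurableEquivRealProd]
  simp_rw [h3]
  have h4 : Continuous fun p : ℝ × ℝ => F (p.2 + p.1 * I) := by fun_prop
  rw [Measure.volume_eq_prod, ← setIntegral_prod_swap]
  simp only [Prod.fst_swap, Prod.snd_swap]
  rw [setIntegral_prod]
  · rw [intervalIntegral.integral_of_le (by linarith : b ≤ b + h), integral_Ico_eq_integral_Ioc]
    refine setIntegral_congr_fun measurableSet_Ioc fun x _ => ?_
    simp only
    rw [intervalIntegral.integral_of_le (by linarith : a ≤ a + h), integral_Ico_eq_integral_Ioc]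
  · have h5 : IntegrableOn (fun p : ℝ × ℝ => F (p.2 + p.1 * I))
        (Icc b (b + h) ×ˢ Icc a (a + h)) (volume.prod volume) :=
      h4.continuousOn.integrableOn_compact (isCompact_Icc.prod isCompact_Icc)
    exact h5.mono_set (Set.prod_mono Ico_subset_Icc_self Ico_subset_Icc_self)

/-! ### gradients in the plane -/

lemma grad_re (φ : ℂ → ℝ) (z : ℂ) : (gradient φ z).re = fderiv ℝ φ z 1 := by
  have h : inner ℝ (gradient φ z) (1 : ℂ) = fderiv ℝ φ z 1 := by
    rw [gradient, InnerProductSpace.toDual_symm_apply]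
  rw [← h, Complex.inner]
  simp

lemma grad_im (φ : ℂ → ℝ) (z : ℂ) : (gradient φ z).im = fderiv ℝ φ z I := by
  have h : inner ℝ (gradient φ z) I = fderiv ℝ φ z I := by
    rw [gradient, InnerProductSpace.toDual_symm_apply]
  rw [← h, Complex.inner]
  simp

lemma grad_sq (φ : ℂ → ℝ) (z : ℂ) :
    ‖gradient φ z‖ ^ 2 = fderiv ℝ φ z 1 ^ 2 + fderiv ℝ φ z I ^ 2 := by
  rw [Complex.sq_norm, Complex.normSq_apply, grad_re, grad_im]
  ring

lemma grad_eq (φ : ℂ → ℝ) (z : ℂ) :
    gradient φ z = (fderiv ℝ φ z 1 : ℂ) + (fderiv ℝ φ z I : ℂ) * I := by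
  apply Complex.ext <;> simp [grad_re, grad_im]

lemma hasDerivAt_re {φ : ℂ → ℝ} (hφ : Differentiable ℝ φ) (x y : ℝ) :
    HasDerivAt (fun x : ℝ => φ (x + y * I)) (fderiv ℝ φ (x + y * I) 1) x := by
  have h1 : HasDerivAt (fun x : ℝ => (x : ℂ) + y * I) 1 x :=
    (Complex.ofRealCLM.hasDerivAt (x := x)).add_const _
  exact (hφ _).hasFDerivAt.comp_hasDerivAt x h1

lemma hasDerivAt_im {φ : ℂ → ℝ} (hφ : Differentiable ℝ φ) (x y : ℝ) :
    HasDerivAt (fun y : ℝ => φ (x + y * I)) (fderiv ℝ φ (x + y * I) I) y := by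
  have h0 : HasDerivAt (fun y : ℝ => (y : ℂ)) 1 y := Complex.ofRealCLM.hasDerivAt (x := y)
  have h1 : HasDerivAt (fun y : ℝ => (x : ℂ) + y * I) I y := by
    have := (h0.mul_const I).const_add (x : ℂ)
    simpa using this
  exact (hφ _).hasFDerivAt.comp_hasDerivAt y h1

lemma continuous_fderiv_apply {φ : ℂ → ℝ} (hφ : ContDiff ℝ 1 φ) (v : ℂ) :
    Continuous fun z => fderiv ℝ φ z v :=
  (hφ.continuous_fderiv (by norm_num)).clm_apply continuous_const

lemma continuous_grad {φ : ℂ → ℝ} (hφ : ContDiff ℝ 1 φ) : Continuous (gradient φ) := by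
  have : gradient φ = fun z => (fderiv ℝ φ z 1 : ℂ) + (fderiv ℝ φ z I : ℂ) * I :=
    funext (grad_eq φ)
  rw [this]
  have h1 := continuous_fderiv_apply hφ 1
  have h2 := continuous_fderiv_apply hφ I
  fun_prop

lemma sq_vol (a b : ℝ) {h : ℝ} (hh : 0 < h) :
    (volume.restrict (Sq a b h)).real univ = h ^ 2 := by
  have h1 := sq_fubini a b hh (F := fun _ => (1 : ℝ)) continuous_const
  rw [integral_const, smul_eq_mul, mul_one] at h1
  rw [h1]
  simp
  ring

/-- Poincaré-Wirtinger on a square -/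
theorem sq_poincare {φ : ℂ → ℝ} (hφ : ContDiff ℝ 1 φ) (a b : ℝ) {h : ℝ} (hh : 0 < h) :
    ∫ z in Sq a b h, φ z ^ 2 ≤ (1 / h * ∫ z in Sq a b h, φ z) ^ 2 +
      h ^ 2 * ∫ z in Sq a b h, ‖gradient φ z‖ ^ 2 := by
  have hd : Differentiable ℝ φ := hφ.differentiable (by norm_num)
  have hcx := continuous_fderiv_apply hφ 1
  have hcy := continuous_fderiv_apply hφ I
  have hc : Continuous φ := hφ.continuous
  set A : ℝ → ℝ := fun y => ∫ s in a..a + h, fderiv ℝ φ (s + y * I) 1 ^ 2 with hA
  set B : ℝ → ℝ := fun x => ∫ s in b..b + h, fderiv ℝ φ (x + s * I) I ^ 2 with hB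
  have hAc : Continuous A := by
    refine intervalIntegral.continuous_parametric_intervalIntegral_of_continuous' ?_ _ _
    fun_prop
  have hBc : Continuous B := by
    refine intervalIntegral.continuous_parametric_intervalIntegral_of_continuous' ?_ _ _
    fun_prop
  have : IsFiniteMeasure (volume.restrict (Sq a b h)) := by
    refine ⟨?_⟩
    rw [Measure.restrict_apply_univ]
    exact (sq_bdd a b h).measure_lt_top
  have hint : ∀ {F : ℂ → ℝ}, Continuous F → Integrable F (volume.restrict (Sq a b h)) :=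
    fun hF => sq_integrable a b h hF
  have key := double_diff (μ := volume.restrict (Sq a b h)) (f := φ)
    (α := fun z => 2 * h * A z.im) (β := fun z => 2 * h * B z.re) (hint hc)
    (hint (by fun_prop)) (hint (by fun_prop)) (hint (by fun_prop)) ?_
  · rw [sq_vol a b hh] at key
    have e1 : ∫ z in Sq a b h, 2 * h * A z.im = 2 * h ^ 2 * ∫ z in Sq a b h,
        fderiv ℝ φ z 1 ^ 2 := by
      rw [sq_fubini a b hh (by fun_prop), sq_fubini' a b hh (by fun_prop)]
      simp only [add_im, ofReal_im, mul_im, ofReal_re, I_im, mul_one, I_re, mul_zero, add_zero,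
        zero_add]
      rw [intervalIntegral.integral_const, intervalIntegral.integral_const_mul]
      simp only [add_sub_cancel_left, smul_eq_mul]
      ring
    have e2 : ∫ z in Sq a b h, 2 * h * B z.re = 2 * h ^ 2 * ∫ z in Sq a b h,
        fderiv ℝ φ z I ^ 2 := by
      rw [sq_fubini' a b hh (by fun_prop), sq_fubini a b hh (by fun_prop)]
      simp only [add_re, ofReal_re, mul_re, I_re, mul_zero, ofReal_im, I_im, mul_one, sub_self,
        add_zero]
      rw [intervalIntegral.integral_const, intervalIntegral.integral_const_mul]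
      simp only [add_sub_cancel_left, smul_eq_mul]
      ring
    have e3 : ∫ z in Sq a b h, ‖gradient φ z‖ ^ 2 = (∫ z in Sq a b h, fderiv ℝ φ z 1 ^ 2) +
        ∫ z in Sq a b h, fderiv ℝ φ z I ^ 2 := by
      simp_rw [grad_sq]
      exact integral_add (hint (by fun_prop)) (hint (by fun_prop))
    rw [e1, e2] at key
    rw [e3]
    have h2 : 0 < h ^ 2 := by positivity
    have e4 : (1 / h * ∫ z in Sq a b h, φ z) ^ 2 = (∫ z in Sq a b h, φ z) ^ 2 / h ^ 2 := by
      field_simp
    rw [e4]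
    have e5 : h ^ 2 * ((∫ z in Sq a b h, φ z) ^ 2 / h ^ 2 + h ^ 2 *
        ((∫ z in Sq a b h, fderiv ℝ φ z 1 ^ 2) + ∫ z in Sq a b h, fderiv ℝ φ z I ^ 2)) =
        (∫ z in Sq a b h, φ z) ^ 2 + h ^ 2 * (2 * h ^ 2 * (∫ z in Sq a b h,
        fderiv ℝ φ z 1 ^ 2) + 2 * h ^ 2 * ∫ z in Sq a b h, fderiv ℝ φ z I ^ 2) / 2 := by
      field_simp
    rw [← e5] at key
    exact le_of_mul_le_mul_left key h2
  · refine (ae_restrict_mem (sq_meas a b h)).mono fun z hz => ?_
    refine (ae_restrict_mem (sq_meas a b h)).mono fun z' hz' => ?_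
    have hx := sq_diff_le (f := fun x : ℝ => φ (x + z.im * I))
      (f' := fun x : ℝ => fderiv ℝ φ (x + z.im * I) 1)
      (fun x => hasDerivAt_re hd x z.im) (by fun_prop) hh hz.1 hz'.1
    have hy := sq_diff_le (f := fun y : ℝ => φ (z'.re + y * I))
      (f' := fun y : ℝ => fderiv ℝ φ (z'.re + y * I) I)
      (fun y => hasDerivAt_im hd z'.re y) (by fun_prop) hh hz.2 hz'.2
    rw [Complex.re_add_im] at hx
    rw [Complex.re_add_im] at hy
    simp only [hA, hB]
    nlinarith [sq_nonneg ((φ z - φ (z'.re + z.im * I)) - (φ (z'.re + z.im * I) - φ z'))]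

end Pool.Agent.H20.LE
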