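import Pool.Agent.H20.LE.Prod

/-!
# Explicit functions: weak equations
-/

open MeasureTheory Complex Set Filter Topology
open scoped ContDiff Laplacian

namespace Pool.Agent.H20.LE

open Pool.Agent.H87.LE

/-- `α SS a b + β SS c d` -/
noncomputable def Co (α β a b c d : ℝ) (z : ℂ) : ℝ := α * SS a b z + β * SS c d z

lemma Co_contDiff (α β a b c d : ℝ) : ContDiff ℝ ∞ (Co α β a b c d) :=
  (contDiff_const.mul (SS_contDiff a b)).add (contDiff_const.mul (SS_contDiff c d))

lemma fderiv_lin {f g : ℂ → ℝ} (α β : ℝ) {z : ℂ} (hf : DifferentiableAt ℝ f z)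
    (hg : DifferentiableAt ℝ g z) (v : ℂ) :
    fderiv ℝ (fun z => α * f z + β * g z) z v = α * fderiv ℝ f z v + β * fderiv ℝ g z v := by
  have h : HasFDerivAt (fun z => α * f z + β * g z) (α • fderiv ℝ f z + β • fderiv ℝ g z) z :=
    (hf.hasFDerivAt.const_mul α).add (hg.hasFDerivAt.const_mul β)
  rw [h.fderiv]
  simp

lemma Co_d (α β a b c d : ℝ) (z v : ℂ) :
    fderiv ℝ (Co α β a b c d) z v = α * fderiv ℝ (SS a b) z v + β * fderiv ℝ (SS c d) z v :=
  fderiv_lin α β ((SS_contDiff a b).differentiable (by simp) z)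
    ((SS_contDiff c d).differentiable (by simp) z) v

lemma SS_d_differentiable (a b : ℝ) (v : ℂ) : Differentiable ℝ fun w => fderiv ℝ (SS a b) w v :=
  (((SS_contDiff a b).fderiv_right (m := ∞) (by simp)).clm_apply contDiff_const).differentiable
    (by simp)

lemma Co_lap {α β a b c d l : ℝ} (h1 : a ^ 2 + b ^ 2 = l) (h2 : c ^ 2 + d ^ 2 = l) (z : ℂ) :
    fderiv ℝ (fun w => fderiv ℝ (Co α β a b c d) w 1) z 1 +
      fderiv ℝ (fun w => fderiv ℝ (Co α β a b c d) w I) z I = -(l * Co α β a b c d z) := by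
  simp_rw [Co_d]
  rw [fderiv_lin α β (SS_d_differentiable a b 1 z) (SS_d_differentiable c d 1 z),
    fderiv_lin α β (SS_d_differentiable a b I z) (SS_d_differentiable c d I z), SS_dxx, SS_dxx,
    SS_dyy, SS_dyy]
  unfold Co
  linear_combination (-α * SS a b z) * h1 + (-β * SS c d z) * h2

lemma Co_weak {α β a b c d l : ℝ} (h1 : a ^ 2 + b ^ 2 = l) (h2 : c ^ 2 + d ^ 2 = l) {φ : ℂ → ℝ}
    (hφ : ContDiff ℝ ∞ φ) (hc : HasCompactSupport φ) :
    ∫ z, inner ℝ (gradient (Co α β a b c d) z) (gradient φ z) = l * ∫ z, Co α β a b c d z * φ z :=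
  weak_eq (Co_contDiff α β a b c d) (Co_lap h1 h2) hφ hc

lemma grad_congr {f g : ℂ → ℝ} {z : ℂ} (h : f =ᶠ[𝓝 z] g) : gradient f z = gradient g z := by
  rw [gradient, gradient, h.fderiv_eq]

lemma grad_const_mul {f : ℂ → ℝ} {z : ℂ} (hf : DifferentiableAt ℝ f z) (c : ℝ) :
    gradient (fun z => c * f z) z = (c : ℂ) * gradient f z := by
  have h : ∀ v, fderiv ℝ (fun z => c * f z) z v = c * fderiv ℝ f z v := by
    intro v
    rw [(hf.hasFDerivAt.const_mul c).fderiv]
    simp
  rw [grad_eq, grad_eq, h, h]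
  push_cast
  ring

/-- functions which are locally `± F` satisfy the same weak equation -/
lemma sign_weak {Ω : Set ℂ} {F f σ : ℂ → ℝ} (hF : ContDiff ℝ ∞ F) {c : ℝ}
    (he : ∀ φ : ℂ → ℝ, ContDiff ℝ ∞ φ → HasCompactSupport φ →
      ∫ z, inner ℝ (gradient F z) (gradient φ z) = c * ∫ z, F z * φ z)
    (hσ : ∀ z ∈ Ω, ∀ᶠ w in 𝓝 z, σ w = σ z) (hf : ∀ z, f z = σ z * F z)
    {φ : ℂ → ℝ} (hφ : Tst Ω φ) :
    ∫ z, inner ℝ (gradient f z) (gradient φ z) = c * ∫ z, f z * φ z := by
  set ψ : ℂ → ℝ := fun z => σ z * φ z with hψ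
  have hoff : ∀ z, z ∉ tsupport φ → ∀ᶠ w in 𝓝 z, φ w = 0 := by
    intro z hz
    exact notMem_tsupport_iff_eventuallyEq.1 hz
  have hon : ∀ z ∈ tsupport φ, ψ =ᶠ[𝓝 z] fun w => σ z * φ w := by
    intro z hz
    filter_upwards [hσ z (hφ.2.2 hz)] with w hw
    rw [hψ]
    simp only
    rw [hw]
  have hψ1 : ContDiff ℝ ∞ ψ := by
    rw [contDiff_iff_contDiffAt]
    intro z
    by_cases hz : z ∈ tsupport φ
    · exact (contDiff_const.mul hφ.1).contDiffAt.congr_of_eventuallyEq (hon z hz)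
    · refine (contDiff_const (c := (0 : ℝ))).contDiffAt.congr_of_eventuallyEq ?_
      filter_upwards [hoff z hz] with w hw
      rw [hψ]
      simp only
      rw [hw, mul_zero]
  have hψ2 : HasCompactSupport ψ := hφ.2.1.mul_left
  have hdF : Differentiable ℝ F := hF.differentiable (by simp)
  have hdφ : Differentiable ℝ φ := hφ.1.differentiable (by simp)
  have h1 : ∀ z, inner ℝ (gradient f z) (gradient φ z) =
      inner ℝ (gradient F z) (gradient ψ z) := by
    intro z
    by_cases hz : z ∈ tsupport φ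
    · have hf' : f =ᶠ[𝓝 z] fun w => σ z * F w := by
        filter_upwards [hσ z (hφ.2.2 hz)] with w hw
        rw [hf w, hw]
      rw [grad_congr hf', grad_congr (hon z hz), grad_const_mul (hdF z), grad_const_mul (hdφ z),
        Complex.inner, Complex.inner]
      simp
      ring
    · have h2 : gradient φ z = 0 := by
        rw [grad_congr (g := fun _ => (0 : ℝ)) (hoff z hz), gradient]
        simp
      have h3 : gradient ψ z = 0 := by
        rw [grad_congr (g := fun _ => (0 : ℝ)) (f := ψ), gradient]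
        · simp
        · filter_upwards [hoff z hz] with w hw
          rw [hψ]
          simp only
          rw [hw, mul_zero]
      rw [h2, h3, inner_zero_right, inner_zero_right]
  simp_rw [h1]
  rw [he ψ hψ1 hψ2]
  congr 1
  refine integral_congr_ae (Eventually.of_forall fun z => ?_)
  simp only [hψ]
  rw [hf z]
  ring

/-- the sign -/
noncomputable def sg (z : ℂ) : ℝ := (SignType.sign (SS Real.pi Real.pi z) : ℝ)

lemma sin_pi_ne {x : ℝ} (h0 : x ≠ 0) (h1 : |x| < 1) : Real.sin (Real.pi * x) ≠ 0 := by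
  have hx := abs_lt.1 h1
  rcases lt_or_gt_of_ne h0 with h | h
  · have : 0 < Real.sin (Real.pi * (-x)) :=
      Real.sin_pos_of_pos_of_lt_pi (by nlinarith [Real.pi_pos]) (by nlinarith [Real.pi_pos])
    rw [mul_neg, Real.sin_neg] at this
    linarith
  · have : 0 < Real.sin (Real.pi * x) :=
      Real.sin_pos_of_pos_of_lt_pi (by nlinarith [Real.pi_pos]) (by nlinarith [Real.pi_pos])
    linarith

lemma SS_ne {z : ℂ} (hz : z ∈ DD \ Axs) : SS Real.pi Real.pi z ≠ 0 := by
  have h : z.re * z.im ≠ 0 := hz.2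
  exact mul_ne_zero (sin_pi_ne (left_ne_zero_of_mul h) hz.1.1)
    (sin_pi_ne (right_ne_zero_of_mul h) hz.1.2)

lemma sg_loc {z : ℂ} (hz : SS Real.pi Real.pi z ≠ 0) : ∀ᶠ w in 𝓝 z, sg w = sg z := by
  have hc : ContinuousAt (SS Real.pi Real.pi) z := (SS_contDiff _ _).continuous.continuousAt
  unfold sg
  rcases lt_or_gt_of_ne hz with h | h
  · filter_upwards [hc.eventually_lt_const h] with w hw
    rw [sign_neg hw, sign_neg h]
  · filter_upwards [hc.eventually_const_lt h] with w hw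
    rw [sign_pos hw, sign_pos h]

lemma abs_SS (z : ℂ) : |SS Real.pi Real.pi z| = sg z * SS Real.pi Real.pi z := by
  rw [sg, sign_mul_self]

/-- the smooth function with `phi0 = sg * Fq` -/
noncomputable def Fq : ℂ → ℝ :=
  Co 1 1 (2 * Real.pi) Real.pi Real.pi (2 * Real.pi)

lemma Fq_eq (z : ℂ) : Fq z = 2 * SS Real.pi Real.pi z *
    (Real.cos (Real.pi * z.re) + Real.cos (Real.pi * z.im)) := by
  unfold Fq Co SS
  rw [mul_assoc 2 Real.pi z.re, mul_assoc 2 Real.pi z.im, Real.sin_two_mul, Real.sin_two_mul]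
  ring

lemma phi0_eq (z : ℂ) : phi0 z = sg z * Fq z := by
  have h := abs_SS z
  rw [Fq_eq]
  unfold phi0
  have h2 : Real.sin (Real.pi * z.re) * Real.sin (Real.pi * z.im) = SS Real.pi Real.pi z := rfl
  rw [h2, h]
  ring

lemma psi11_eq (z : ℂ) : psi11 z = sg z * SS Real.pi Real.pi z := by
  rw [← abs_SS z]
  rfl

lemma w0_eq : w0 = Co 1 (-1) Real.pi (2 * Real.pi) (2 * Real.pi) Real.pi := by
  funext z
  unfold w0 Co SS
  ring

end Pool.Agent.H20.LE
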