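import Pool.Agent.H20.LE.Expl

/-!
# The kink of `phi0` on the axes
-/

open MeasureTheory Complex Set Filter Topology
open scoped ContDiff Laplacian

namespace Pool.Agent.H20.LE

open Pool.Agent.H87.LE

section parts

variable {F φ : ℂ → ℝ}

lemma cd_apply (hF : ContDiff ℝ ∞ F) (v : ℂ) : ContDiff ℝ ∞ (fun w => fderiv ℝ F w v) :=
  (hF.fderiv_right (m := ∞) (by simp)).clm_apply contDiff_const

lemma qx (hF : ContDiff ℝ ∞ F) (hφ : ContDiff ℝ ∞ φ) (a b : ℝ) {h : ℝ} (hh : 0 < h) :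
    ∫ z in Sq a b h, fderiv ℝ F z 1 * fderiv ℝ φ z 1 =
      (∫ y in b..b + h, (fderiv ℝ F (((a + h : ℝ) : ℂ) + y * I) 1 * φ (((a + h : ℝ) : ℂ) + y * I) -
        fderiv ℝ F ((a : ℂ) + y * I) 1 * φ ((a : ℂ) + y * I))) -
      ∫ z in Sq a b h, fderiv ℝ (fun w => fderiv ℝ F w 1) z 1 * φ z := by
  have h1 := (cd_apply hF 1).continuous
  have h2 := (cd_apply (cd_apply hF 1) 1).continuous
  have h3 := (cd_apply hφ 1).continuous
  have h0 := hφ.continuous
  have hm1 : Continuous fun z => fderiv ℝ F z 1 * fderiv ℝ φ z 1 := h1.mul h3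
  have hm2 : Continuous fun z => fderiv ℝ (fun w => fderiv ℝ F w 1) z 1 * φ z := h2.mul h0
  rw [sq_fubini' a b hh hm1, sq_fubini' a b hh hm2,
    ← intervalIntegral.integral_sub]
  · refine intervalIntegral.integral_congr fun y _ => ?_
    rw [intervalIntegral.integral_mul_deriv_eq_deriv_mul
      (u := fun x : ℝ => fderiv ℝ F (x + y * I) 1)
      (u' := fun x : ℝ => fderiv ℝ (fun w => fderiv ℝ F w 1) (x + y * I) 1)
      (v := fun x : ℝ => φ (x + y * I)) (v' := fun x : ℝ => fderiv ℝ φ (x + y * I) 1)]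
    · intro x _
      exact hasDerivAt_re ((cd_apply hF 1).differentiable (by simp)) x y
    · intro x _
      exact hasDerivAt_re (hφ.differentiable (by simp)) x y
    · exact Continuous.intervalIntegrable (by fun_prop) _ _
    · exact Continuous.intervalIntegrable (by fun_prop) _ _
  · exact Continuous.intervalIntegrable (by fun_prop) _ _
  · refine Continuous.intervalIntegrable ?_ _ _
    refine intervalIntegral.continuous_parametric_intervalIntegral_of_continuous' ?_ _ _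
    fun_prop

lemma qy (hF : ContDiff ℝ ∞ F) (hφ : ContDiff ℝ ∞ φ) (a b : ℝ) {h : ℝ} (hh : 0 < h) :
    ∫ z in Sq a b h, fderiv ℝ F z I * fderiv ℝ φ z I =
      (∫ x in a..a + h, (fderiv ℝ F ((x : ℂ) + ((b + h : ℝ) : ℂ) * I) I *
        φ ((x : ℂ) + ((b + h : ℝ) : ℂ) * I) -
        fderiv ℝ F ((x : ℂ) + (b : ℂ) * I) I * φ ((x : ℂ) + (b : ℂ) * I))) -
      ∫ z in Sq a b h, fderiv ℝ (fun w => fderiv ℝ F w I) z I * φ z := by
  have h1 := (cd_apply hF I).continuous
  have h2 := (cd_apply (cd_apply hF I) I).continuous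
  have h3 := (cd_apply hφ I).continuous
  have h0 := hφ.continuous
  have hm1 : Continuous fun z => fderiv ℝ F z I * fderiv ℝ φ z I := h1.mul h3
  have hm2 : Continuous fun z => fderiv ℝ (fun w => fderiv ℝ F w I) z I * φ z := h2.mul h0
  rw [sq_fubini a b hh hm1, sq_fubini a b hh hm2,
    ← intervalIntegral.integral_sub]
  · refine intervalIntegral.integral_congr fun x _ => ?_
    rw [intervalIntegral.integral_mul_deriv_eq_deriv_mul
      (u := fun y : ℝ => fderiv ℝ F (x + y * I) I)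
      (u' := fun y : ℝ => fderiv ℝ (fun w => fderiv ℝ F w I) (x + y * I) I)
      (v := fun y : ℝ => φ (x + y * I)) (v' := fun y : ℝ => fderiv ℝ φ (x + y * I) I)]
    · intro y _
      exact hasDerivAt_im ((cd_apply hF I).differentiable (by simp)) x y
    · intro y _
      exact hasDerivAt_im (hφ.differentiable (by simp)) x y
    · exact Continuous.intervalIntegrable (by fun_prop) _ _
    · exact Continuous.intervalIntegrable (by fun_prop) _ _
  · exact Continuous.intervalIntegrable (by fun_prop) _ _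
  · refine Continuous.intervalIntegrable ?_ _ _
    refine intervalIntegral.continuous_parametric_intervalIntegral_of_continuous' ?_ _ _
    fun_prop

/-- Green's formula on a square -/
lemma quad_parts (hF : ContDiff ℝ ∞ F) (hφ : ContDiff ℝ ∞ φ) {c : ℝ}
    (he : ∀ z, fderiv ℝ (fun w => fderiv ℝ F w 1) z 1 + fderiv ℝ (fun w => fderiv ℝ F w I) z I =
      -(c * F z)) (a b : ℝ) {h : ℝ} (hh : 0 < h) :
    ∫ z in Sq a b h, inner ℝ (gradient F z) (gradient φ z) =
      c * (∫ z in Sq a b h, F z * φ z) +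
      (∫ y in b..b + h, (fderiv ℝ F (((a + h : ℝ) : ℂ) + y * I) 1 * φ (((a + h : ℝ) : ℂ) + y * I) -
        fderiv ℝ F ((a : ℂ) + y * I) 1 * φ ((a : ℂ) + y * I))) +
      (∫ x in a..a + h, (fderiv ℝ F ((x : ℂ) + ((b + h : ℝ) : ℂ) * I) I *
        φ ((x : ℂ) + ((b + h : ℝ) : ℂ) * I) -
        fderiv ℝ F ((x : ℂ) + (b : ℂ) * I) I * φ ((x : ℂ) + (b : ℂ) * I))) := by
  have hc1 := fun v => (cd_apply hF v).continuous
  have hc2 := fun v => (cd_apply (cd_apply hF v) v).continuous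
  have hc3 := fun v => (cd_apply hφ v).continuous
  have h0 := hφ.continuous
  simp_rw [inner_grad]
  have hm1 : ∀ v : ℂ, IntegrableOn (fun z => fderiv ℝ F z v * fderiv ℝ φ z v) (Sq a b h) :=
    fun v => sq_integrable a b h ((hc1 v).mul (hc3 v))
  have hm2 : ∀ v : ℂ, IntegrableOn (fun z => fderiv ℝ (fun w => fderiv ℝ F w v) z v * φ z)
    (Sq a b h) := fun v => sq_integrable a b h ((hc2 v).mul h0)
  rw [integral_add (hm1 1) (hm1 I), qx hF hφ a b hh, qy hF hφ a b hh]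
  have h1 : (∫ z in Sq a b h, fderiv ℝ (fun w => fderiv ℝ F w 1) z 1 * φ z) +
      ∫ z in Sq a b h, fderiv ℝ (fun w => fderiv ℝ F w I) z I * φ z =
      -(c * ∫ z in Sq a b h, F z * φ z) := by
    rw [← integral_add (hm2 1) (hm2 I), ← integral_const_mul, ← integral_neg]
    refine integral_congr_ae (Eventually.of_forall fun z => ?_)
    simp only
    rw [← add_mul, he z]
    ring
  linarith

end parts

/-! ### decomposition into the four quadrants -/

lemma null_re (a : ℝ) : volume {z : ℂ | z.re = a} = 0 := by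
  have h := Complex.volume_preserving_equiv_real_prod.measure_preimage
    (s := {p : ℝ × ℝ | p.1 = a}) (by
      exact (measurableSet_eq_fun measurable_fst measurable_const).nullMeasurableSet)
  have h2 : Complex.measurableEquivRealProd ⁻¹' {p : ℝ × ℝ | p.1 = a} = {z : ℂ | z.re = a} := by
    ext z; simp [Complex.measurableEquivRealProd]
  rw [h2] at h
  rw [h]
  have h3 : {p : ℝ × ℝ | p.1 = a} = ({a} : Set ℝ) ×ˢ univ := by
    ext p; simp
  rw [h3, Measure.volume_eq_prod, Measure.prod_prod]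
  simp

lemma null_im (a : ℝ) : volume {z : ℂ | z.im = a} = 0 := by
  have h := Complex.volume_preserving_equiv_real_prod.measure_preimage
    (s := {p : ℝ × ℝ | p.2 = a}) (by
      exact (measurableSet_eq_fun measurable_snd measurable_const).nullMeasurableSet)
  have h2 : Complex.measurableEquivRealProd ⁻¹' {p : ℝ × ℝ | p.2 = a} = {z : ℂ | z.im = a} := by
    ext z; simp [Complex.measurableEquivRealProd]
  rw [h2] at h
  rw [h]
  have h3 : {p : ℝ × ℝ | p.2 = a} = univ ×ˢ ({a} : Set ℝ) := by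
    ext p; simp
  rw [h3, Measure.volume_eq_prod, Measure.prod_prod]
  simp

lemma four_squares {G : ℂ → ℝ} (h1 : IntegrableOn G (Sq (-1) (-1) 1))
    (h2 : IntegrableOn G (Sq 0 (-1) 1)) (h3 : IntegrableOn G (Sq (-1) 0 1))
    (h4 : IntegrableOn G (Sq 0 0 1)) :
    ∫ z in Sq (-1) (-1) 2, G z = (∫ z in Sq (-1) (-1) 1, G z) + (∫ z in Sq 0 (-1) 1, G z) +
      (∫ z in Sq (-1) 0 1, G z) + ∫ z in Sq 0 0 1, G z := by
  have hu : Sq (-1) (-1) 2 = ((Sq (-1) (-1) 1 ∪ Sq 0 (-1) 1) ∪ Sq (-1) 0 1) ∪ Sq 0 0 1 := by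
    ext z
    simp only [Sq, mem_ofPred_eq, mem_union, mem_Ico]
    constructor
    · rintro ⟨⟨a1, a2⟩, b1, b2⟩
      rcases lt_or_ge z.re 0 with h | h <;> rcases lt_or_ge z.im 0 with h' | h'
      · left; left; left; refine ⟨⟨a1, by linarith⟩, b1, by linarith⟩
      · left; right; refine ⟨⟨a1, by linarith⟩, by linarith, by linarith⟩
      · left; left; right; refine ⟨⟨by linarith, by linarith⟩, b1, by linarith⟩
      · right; refine ⟨⟨by linarith, by linarith⟩, by linarith, by linarith⟩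
    · rintro (((⟨⟨a1, a2⟩, b1, b2⟩ | ⟨⟨a1, a2⟩, b1, b2⟩) | ⟨⟨a1, a2⟩, b1, b2⟩) |
        ⟨⟨a1, a2⟩, b1, b2⟩) <;>
        exact ⟨⟨by linarith, by linarith⟩, by linarith, by linarith⟩
  have d1 : Disjoint (Sq (-1) (-1) 1) (Sq 0 (-1) 1) := by
    rw [Set.disjoint_left]
    intro z hz hz'
    have := hz.1.2; have := hz'.1.1; linarith
  have d2 : Disjoint (Sq (-1) (-1) 1 ∪ Sq 0 (-1) 1) (Sq (-1) 0 1) := by
    rw [Set.disjoint_left]
    rintro z (hz | hz) hz' <;>
    · have := hz.2.2; have := hz'.2.1; linarith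
  have d3 : Disjoint ((Sq (-1) (-1) 1 ∪ Sq 0 (-1) 1) ∪ Sq (-1) 0 1) (Sq 0 0 1) := by
    rw [Set.disjoint_left]
    rintro z ((hz | hz) | hz) hz'
    · have := hz.2.2; have := hz'.2.1; linarith
    · have := hz.2.2; have := hz'.2.1; linarith
    · have := hz.1.2; have := hz'.1.1; linarith
  rw [hu, setIntegral_union d3 (sq_meas _ _ _) ((h1.union h2).union h3) h4,
    setIntegral_union d2 (sq_meas _ _ _) (h1.union h2) h3,
    setIntegral_union d1 (sq_meas _ _ _) h1 h2]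

lemma sin_pi_zero_or {a : ℝ} (ha : a = 0 ∨ a = -1) : Real.sin (Real.pi * a) = 0 := by
  rcases ha with rfl | rfl <;> simp

/-- sign of the quadrant with corner `(a, b)`, `a, b ∈ {0, -1}` -/
def qs (a b : ℝ) : ℝ := (1 + 2 * a) * (1 + 2 * b)

lemma sin_sign {a x : ℝ} (ha : a = 0 ∨ a = -1) (h1 : a < x) (h2 : x < a + 1) :
    0 < (1 + 2 * a) * Real.sin (Real.pi * x) := by
  rcases ha with rfl | rfl
  · have : 0 < Real.sin (Real.pi * x) :=
      Real.sin_pos_of_pos_of_lt_pi (by nlinarith [Real.pi_pos]) (by nlinarith [Real.pi_pos])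
    linarith
  · have : 0 < Real.sin (Real.pi * (-x)) :=
      Real.sin_pos_of_pos_of_lt_pi (by nlinarith [Real.pi_pos]) (by nlinarith [Real.pi_pos])
    rw [mul_neg, Real.sin_neg] at this
    linarith

lemma sg_open {a b : ℝ} (ha : a = 0 ∨ a = -1) (hb : b = 0 ∨ b = -1) {z : ℂ}
    (hz : z ∈ Sq a b 1) (h1 : z.re ≠ a) (h2 : z.im ≠ b) :
    sg z = qs a b ∧ SS Real.pi Real.pi z ≠ 0 := by
  have s1 := sin_sign ha (lt_of_le_of_ne hz.1.1 (Ne.symm h1)) hz.1.2
  have s2 := sin_sign hb (lt_of_le_of_ne hz.2.1 (Ne.symm h2)) hz.2.2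
  have s3 := mul_pos s1 s2
  have s4 : 0 < qs a b * SS Real.pi Real.pi z := by
    unfold qs SS
    calc (0 : ℝ) < _ := s3
      _ = _ := by ring
  have hq : qs a b = 1 ∨ qs a b = -1 := by
    unfold qs
    rcases ha with rfl | rfl <;> rcases hb with rfl | rfl <;> norm_num
  refine ⟨?_, fun h => by rw [h, mul_zero] at s4; exact lt_irrefl _ s4⟩
  unfold sg
  rcases hq with h | h
  · rw [h] at s4 ⊢
    rw [sign_pos (by linarith)]
    simp
  · rw [h] at s4 ⊢
    rw [sign_neg (by linarith)]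
    simp

lemma Fq_contDiff : ContDiff ℝ ∞ Fq := Co_contDiff _ _ _ _ _ _

lemma Fq_diff : Differentiable ℝ Fq := Fq_contDiff.differentiable (by simp)

lemma Fq_lap (z : ℂ) : fderiv ℝ (fun w => fderiv ℝ Fq w 1) z 1 +
    fderiv ℝ (fun w => fderiv ℝ Fq w I) z I = -(5 * Real.pi ^ 2 * Fq z) :=
  Co_lap (by ring) (by ring) z

lemma Fq_zero_of_SS {z : ℂ} (h : SS Real.pi Real.pi z = 0) : Fq z = 0 := by
  rw [Fq_eq, h]; ring

lemma phi0_on {a b : ℝ} (ha : a = 0 ∨ a = -1) (hb : b = 0 ∨ b = -1) {z : ℂ}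
    (hz : z ∈ Sq a b 1) : phi0 z = qs a b * Fq z := by
  by_cases h1 : z.re = a
  · have : SS Real.pi Real.pi z = 0 := by
      unfold SS; rw [h1, sin_pi_zero_or ha, zero_mul]
    rw [phi0_eq, Fq_zero_of_SS this, mul_zero, mul_zero]
  by_cases h2 : z.im = b
  · have : SS Real.pi Real.pi z = 0 := by
      unfold SS; rw [h2, sin_pi_zero_or hb, mul_zero]
    rw [phi0_eq, Fq_zero_of_SS this, mul_zero, mul_zero]
  · rw [phi0_eq, (sg_open ha hb hz h1 h2).1]

lemma grad_phi0_on {a b : ℝ} (ha : a = 0 ∨ a = -1) (hb : b = 0 ∨ b = -1) :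
    ∀ᵐ z ∂(volume.restrict (Sq a b 1)), gradient phi0 z = (qs a b : ℂ) * gradient Fq z := by
  have hn : ∀ᵐ z : ℂ ∂(volume.restrict (Sq a b 1)), z.re ≠ a ∧ z.im ≠ b := by
    refine ae_restrict_of_ae ?_
    have h1 : ∀ᵐ z : ℂ, z.re ≠ a := by
      rw [ae_iff]; simpa using null_re a
    have h2 : ∀ᵐ z : ℂ, z.im ≠ b := by
      rw [ae_iff]; simpa using null_im b
    exact h1.and h2
  filter_upwards [hn, ae_restrict_mem (sq_meas a b 1)] with z hz hz'
  obtain ⟨h1, h2⟩ := sg_open ha hb hz' hz.1 hz.2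
  have h3 : phi0 =ᶠ[𝓝 z] fun w => sg z * Fq w := by
    filter_upwards [sg_loc h2] with w hw
    rw [phi0_eq w, hw]
  rw [grad_congr h3, grad_const_mul (Fq_diff z), h1]

/-! ### the radial bump -/

/-- a radial bump supported in the closed ball of radius `ρ` -/
noncomputable def rb (ρ : ℝ) (z : ℂ) : ℝ := Real.smoothTransition (1 - Complex.normSq z / ρ ^ 2)

lemma rb_contDiff (ρ : ℝ) : ContDiff ℝ ∞ (rb ρ) := by
  unfold rb
  have h1 : ContDiff ℝ ∞ (fun z : ℂ => Complex.normSq z) := by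
    have h2 : (fun z : ℂ => Complex.normSq z) = fun z => z.re * z.re + z.im * z.im := by
      funext z; exact Complex.normSq_apply z
    rw [h2]
    have h3 : ContDiff ℝ ∞ (fun z : ℂ => z.re) := Complex.reCLM.contDiff
    have h4 : ContDiff ℝ ∞ (fun z : ℂ => z.im) := Complex.imCLM.contDiff
    exact (h3.mul h3).add (h4.mul h4)
  exact Real.smoothTransition.contDiff.comp (contDiff_const.sub (h1.div_const _))

lemma rb_nonneg (ρ : ℝ) (z : ℂ) : 0 ≤ rb ρ z := Real.smoothTransition.nonneg _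

lemma rb_pos {ρ : ℝ} (hρ : 0 < ρ) {z : ℂ} (hz : ‖z‖ < ρ) : 0 < rb ρ z := by
  apply Real.smoothTransition.pos_of_pos
  rw [sub_pos, div_lt_one (by positivity), ← Complex.sq_norm]
  exact pow_lt_pow_left₀ hz (norm_nonneg _) (by norm_num)

lemma rb_zero {ρ : ℝ} (hρ : 0 < ρ) {z : ℂ} (hz : ρ ≤ ‖z‖) : rb ρ z = 0 := by
  apply Real.smoothTransition.zero_of_nonpos
  rw [sub_nonpos, one_le_div (by positivity), ← Complex.sq_norm]
  exact pow_le_pow_left₀ hρ.le hz 2

lemma rb_tsupport {ρ : ℝ} (hρ : 0 < ρ) : tsupport (rb ρ) ⊆ Metric.closedBall 0 ρ := by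
  refine closure_minimal ?_ Metric.isClosed_closedBall
  intro z hz
  by_contra h
  rw [Metric.mem_closedBall, dist_zero_right, not_le] at h
  exact hz (rb_zero hρ h.le)

lemma rb_rot (ρ : ℝ) : Rot (rb ρ) := by
  intro z
  unfold rb
  rw [map_mul, Complex.normSq_I, one_mul]

lemma rb_cnj (ρ : ℝ) : Cnj (rb ρ) := by
  intro z
  unfold rb
  rw [Complex.normSq_conj]

/-- boundary integrand on the axes -/
noncomputable def ax (t : ℝ) : ℝ := 2 * Real.pi * Real.sin (Real.pi * t) +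
  Real.pi * Real.sin (2 * Real.pi * t)

lemma ax_eq (t : ℝ) : ax t = 2 * Real.pi * Real.sin (Real.pi * t) *
    (1 + Real.cos (Real.pi * t)) := by
  unfold ax
  rw [mul_assoc 2 Real.pi t, Real.sin_two_mul]
  ring

lemma ax_sign {a t : ℝ} (ha : a = 0 ∨ a = -1) (h1 : a < t) (h2 : t < a + 1) :
    0 < (1 + 2 * a) * ax t := by
  have s1 := sin_sign ha h1 h2
  have h3 : 0 < 1 + Real.cos (Real.pi * t) := by
    have h4 : -1 ≤ Real.cos (Real.pi * t) := Real.neg_one_le_cos _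
    have h5 : Real.cos (Real.pi * t) ≠ -1 := by
      intro h5
      have h6 : Real.sin (Real.pi * t) ^ 2 = 0 := by
        rw [Real.sin_sq, h5]; norm_num
      have h7 : Real.sin (Real.pi * t) = 0 := by simpa using h6
      rw [h7, mul_zero] at s1
      exact lt_irrefl _ s1
    have h6 : -1 < Real.cos (Real.pi * t) := lt_of_le_of_ne h4 (Ne.symm h5)
    linarith
  rw [ax_eq]
  have h4 : 0 < Real.pi := Real.pi_pos
  calc (0 : ℝ) < 2 * Real.pi * ((1 + 2 * a) * Real.sin (Real.pi * t)) *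
      (1 + Real.cos (Real.pi * t)) := by positivity
    _ = _ := by ring

lemma Fq_dx_axis (y : ℝ) : fderiv ℝ Fq ((y : ℂ) * I) 1 = ax y := by
  unfold Fq ax
  rw [Co_d, SS_dx, SS_dx]
  simp

lemma Fq_dy_axis (x : ℝ) : fderiv ℝ Fq (x : ℂ) I = ax x := by
  unfold Fq ax
  rw [Co_d, SS_dy, SS_dy]
  simp
  ring

lemma ax_cont : Continuous ax := by unfold ax; fun_prop

/-- the boundary integral over half an axis -/
lemma ax_int_pos {ρ : ℝ} (hρ : 0 < ρ) (hρ1 : ρ < 1) {a : ℝ} (ha : a = 0 ∨ a = -1) {v : ℂ}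
    (hv : ‖v‖ = 1) : 0 < (1 + 2 * a) * ∫ t in a..a + 1, ax t * rb ρ ((t : ℂ) * v) := by
  rw [← intervalIntegral.integral_const_mul]
  have hc : Continuous fun t : ℝ => (1 + 2 * a) * (ax t * rb ρ ((t : ℂ) * v)) := by
    have h1 := ax_cont
    have h2 : Continuous fun t : ℝ => rb ρ ((t : ℂ) * v) :=
      (rb_contDiff ρ).continuous.comp (by fun_prop)
    fun_prop
  refine intervalIntegral.integral_pos (by linarith) hc.continuousOn (fun t ht => ?_) ?_
  · rcases eq_or_lt_of_le ht.2 with h | h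
    · rw [h]
      have h0 : ax (a + 1) = 0 := by
        rcases ha with rfl | rfl
        · rw [ax_eq]; simp
        · rw [ax_eq]; simp
      rw [h0]; simp
    · have := ax_sign ha ht.1 h
      have h2 := rb_nonneg ρ ((t : ℂ) * v)
      calc (0 : ℝ) ≤ ((1 + 2 * a) * ax t) * rb ρ ((t : ℂ) * v) := mul_nonneg this.le h2
        _ = _ := by ring
  · rcases ha with rfl | rfl
    · refine ⟨ρ / 2, ⟨by linarith, by linarith⟩, ?_⟩
      have h1 := ax_sign (a := 0) (Or.inl rfl) (t := ρ / 2) (by linarith) (by linarith)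
      have h2 : 0 < rb ρ (((ρ / 2 : ℝ) : ℂ) * v) := by
        apply rb_pos hρ
        rw [norm_mul, hv, mul_one, Complex.norm_real, Real.norm_of_nonneg (by linarith)]
        linarith
      calc (0 : ℝ) < ((1 + 2 * 0) * ax (ρ / 2)) * rb ρ (((ρ / 2 : ℝ) : ℂ) * v) := mul_pos h1 h2
        _ = _ := by ring
    · refine ⟨-(ρ / 2), ⟨by linarith, by linarith⟩, ?_⟩
      have h1 := ax_sign (a := -1) (Or.inr rfl) (t := -(ρ / 2)) (by linarith) (by linarith)
      have h2 : 0 < rb ρ (((-(ρ / 2) : ℝ) : ℂ) * v) := by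
        apply rb_pos hρ
        rw [norm_mul, hv, mul_one, Complex.norm_real, norm_neg, Real.norm_of_nonneg (by linarith)]
        linarith
      calc (0 : ℝ) < ((1 + 2 * (-1)) * ax (-(ρ / 2))) * rb ρ (((-(ρ / 2) : ℝ) : ℂ) * v) :=
            mul_pos h1 h2
        _ = _ := by ring

/-- Green's formula on a quadrant for the radial bump -/
lemma quad_kink {ρ : ℝ} (hρ : 0 < ρ) (hρ1 : ρ < 1) {a b : ℝ} (ha : a = 0 ∨ a = -1)
    (hb : b = 0 ∨ b = -1) :
    ∫ z in Sq a b 1, inner ℝ (gradient Fq z) (gradient (rb ρ) z) =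
      5 * Real.pi ^ 2 * (∫ z in Sq a b 1, Fq z * rb ρ z) -
      (1 + 2 * a) * (∫ t in b..b + 1, ax t * rb ρ ((t : ℂ) * I)) -
      (1 + 2 * b) * (∫ t in a..a + 1, ax t * rb ρ ((t : ℂ) * 1)) := by
  have h := quad_parts Fq_contDiff (rb_contDiff ρ) Fq_lap a b one_pos
  rw [h]
  have h1 : ∀ y : ℝ, fderiv ℝ Fq (((a + 1 : ℝ) : ℂ) + y * I) 1 * rb ρ (((a + 1 : ℝ) : ℂ) + y * I) -
        fderiv ℝ Fq ((a : ℂ) + y * I) 1 * rb ρ ((a : ℂ) + y * I) =
        -(1 + 2 * a) * (ax y * rb ρ ((y : ℂ) * I)) := by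
    intro y
    rcases ha with rfl | rfl
    · have h2 : rb ρ (((0 + 1 : ℝ) : ℂ) + y * I) = 0 := by
        apply rb_zero hρ
        refine hρ1.le.trans (le_trans ?_ (Complex.abs_re_le_norm _))
        simp
      have h3 : ((0 : ℝ) : ℂ) + y * I = (y : ℂ) * I := by simp
      rw [h2, h3, Fq_dx_axis]
      ring
    · have h2 : rb ρ (((-1 : ℝ) : ℂ) + y * I) = 0 := by
        apply rb_zero hρ
        refine hρ1.le.trans (le_trans ?_ (Complex.abs_re_le_norm _))
        simp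
      have h3 : (((-1 + 1 : ℝ) : ℂ) + y * I) = (y : ℂ) * I := by norm_num
      rw [h2, h3, Fq_dx_axis]
      ring
  have h1' : ∀ x : ℝ, fderiv ℝ Fq ((x : ℂ) + ((b + 1 : ℝ) : ℂ) * I) I *
        rb ρ ((x : ℂ) + ((b + 1 : ℝ) : ℂ) * I) -
        fderiv ℝ Fq ((x : ℂ) + (b : ℂ) * I) I * rb ρ ((x : ℂ) + (b : ℂ) * I) =
        -(1 + 2 * b) * (ax x * rb ρ ((x : ℂ) * 1)) := by
    intro x
    rcases hb with rfl | rfl
    · have h2 : rb ρ ((x : ℂ) + ((0 + 1 : ℝ) : ℂ) * I) = 0 := by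
        apply rb_zero hρ
        refine hρ1.le.trans (le_trans ?_ (Complex.abs_im_le_norm _))
        simp
      have h3 : (x : ℂ) + ((0 : ℝ) : ℂ) * I = (x : ℂ) := by simp
      rw [h2, h3, Fq_dy_axis, mul_one]
      ring
    · have h2 : rb ρ ((x : ℂ) + ((-1 : ℝ) : ℂ) * I) = 0 := by
        apply rb_zero hρ
        refine hρ1.le.trans (le_trans ?_ (Complex.abs_im_le_norm _))
        simp
      have h3 : ((x : ℂ) + ((-1 + 1 : ℝ) : ℂ) * I) = (x : ℂ) := by norm_num
      rw [h2, h3, Fq_dy_axis, mul_one]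
      ring
  simp_rw [h1, h1']
  rw [intervalIntegral.integral_const_mul, intervalIntegral.integral_const_mul]
  ring

theorem phi0_kink' {r : ℝ} (hr : 0 < r) : ∃ φ, Tst (DD \ (Axs \ Metric.ball 0 r)) φ ∧ Rot φ ∧
    Cnj φ ∧ ∫ z in DD, inner ℝ (gradient phi0 z) (gradient φ z) ≠
      5 * Real.pi ^ 2 * ∫ z in DD, phi0 z * φ z := by
  set ρ : ℝ := min r 1 / 2 with hρdef
  have hm : 0 < min r 1 := lt_min hr one_pos
  have hρ : 0 < ρ := by positivity
  have hρr : ρ < r := by have := min_le_left r 1; linarith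
  have hρ1 : ρ < 1 := by have := min_le_right r 1; linarith
  have hball : Metric.closedBall (0 : ℂ) ρ ⊆ DD := by
    intro z hz
    rw [Metric.mem_closedBall, dist_zero_right] at hz
    exact ⟨lt_of_le_of_lt ((Complex.abs_re_le_norm z).trans hz) hρ1,
      lt_of_le_of_lt ((Complex.abs_im_le_norm z).trans hz) hρ1⟩
  have hts := rb_tsupport hρ
  have hcs : HasCompactSupport (rb ρ) :=
    HasCompactSupport.of_support_subset_isCompact (isCompact_closedBall (0 : ℂ) ρ)
      (subset_closure.trans hts)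
  have hT : Tst DD (rb ρ) := ⟨rb_contDiff ρ, hcs, hts.trans hball⟩
  refine ⟨rb ρ, ⟨rb_contDiff ρ, hcs, fun z hz => ⟨hball (hts hz), fun h => h.2 ?_⟩⟩, rb_rot ρ,
    rb_cnj ρ, ?_⟩
  · have := hts hz
    rw [Metric.mem_closedBall] at this
    exact Metric.mem_ball.2 (lt_of_le_of_lt this hρr)
  -- reduce to the big square
  have hDD : DD ⊆ Sq (-1) (-1) 2 := by
    intro z hz
    have h1 := abs_lt.1 hz.1
    have h2 := abs_lt.1 hz.2
    exact ⟨⟨by linarith, by linarith⟩, ⟨by linarith, by linarith⟩⟩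
  have hz0 : ∀ z, z ∉ DD → rb ρ z = 0 := fun z hz =>
    image_eq_zero_of_notMem_tsupport fun h => hz (hT.2.2 h)
  have hg0 : ∀ z, z ∉ DD → gradient (rb ρ) z = 0 := by
    intro z hz
    have h1 : fderiv ℝ (rb ρ) z = 0 := by
      by_contra h
      exact hz (hT.2.2 (support_fderiv_subset ℝ h))
    rw [gradient, h1, map_zero]
  have e1 : ∫ z in DD, inner ℝ (gradient phi0 z) (gradient (rb ρ) z) =
      ∫ z in Sq (-1) (-1) 2, inner ℝ (gradient phi0 z) (gradient (rb ρ) z) := by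
    rw [setIntegral_eq_integral_of_forall_compl_eq_zero fun z hz => by
        rw [hg0 z hz, inner_zero_right],
      setIntegral_eq_integral_of_forall_compl_eq_zero fun z hz => by
        rw [hg0 z fun h => hz (hDD h), inner_zero_right]]
  have e2 : ∫ z in DD, phi0 z * rb ρ z = ∫ z in Sq (-1) (-1) 2, phi0 z * rb ρ z := by
    rw [setIntegral_eq_integral_of_forall_compl_eq_zero fun z hz => by rw [hz0 z hz, mul_zero],
      setIntegral_eq_integral_of_forall_compl_eq_zero fun z hz => by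
        rw [hz0 z fun h => hz (hDD h), mul_zero]]
  have hcF : Continuous fun z => inner ℝ (gradient Fq z) (gradient (rb ρ) z) :=
    (continuous_grad (Fq_contDiff.of_le (by exact_mod_cast le_top))).inner
      (continuous_grad ((rb_contDiff ρ).of_le (by exact_mod_cast le_top)))
  have hcF2 : Continuous fun z => Fq z * rb ρ z :=
    Fq_contDiff.continuous.mul (rb_contDiff ρ).continuous
  -- the two integrands on a quadrant
  have a1 : ∀ {a b : ℝ}, (a = 0 ∨ a = -1) → (b = 0 ∨ b = -1) →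
      (fun z => inner ℝ (gradient phi0 z) (gradient (rb ρ) z)) =ᵐ[volume.restrict (Sq a b 1)]
        fun z => qs a b * inner ℝ (gradient Fq z) (gradient (rb ρ) z) := by
    intro a b ha hb
    filter_upwards [grad_phi0_on ha hb] with z hz
    rw [hz, Complex.inner, Complex.inner]
    simp
    ring
  have a2 : ∀ {a b : ℝ}, (a = 0 ∨ a = -1) → (b = 0 ∨ b = -1) →
      IntegrableOn (fun z => inner ℝ (gradient phi0 z) (gradient (rb ρ) z)) (Sq a b 1) := by
    intro a b ha hb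
    exact (IntegrableOn.congr_fun_ae (sq_integrable a b 1 (continuous_const.mul hcF)) (a1 ha hb).symm)
  have a3 : ∀ {a b : ℝ}, (a = 0 ∨ a = -1) → (b = 0 ∨ b = -1) →
      ∫ z in Sq a b 1, inner ℝ (gradient phi0 z) (gradient (rb ρ) z) =
        qs a b * ∫ z in Sq a b 1, inner ℝ (gradient Fq z) (gradient (rb ρ) z) := by
    intro a b ha hb
    rw [integral_congr_ae (a1 ha hb), integral_const_mul]
  have b1 : ∀ {a b : ℝ}, (a = 0 ∨ a = -1) → (b = 0 ∨ b = -1) →
      EqOn (fun z => phi0 z * rb ρ z) (fun z => qs a b * (Fq z * rb ρ z)) (Sq a b 1) := by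
    intro a b ha hb z hz
    simp only
    rw [phi0_on ha hb hz]
    ring
  have b2 : ∀ {a b : ℝ}, (a = 0 ∨ a = -1) → (b = 0 ∨ b = -1) →
      IntegrableOn (fun z => phi0 z * rb ρ z) (Sq a b 1) := by
    intro a b ha hb
    exact (integrableOn_congr_fun (b1 ha hb) (sq_meas a b 1)).2
      (sq_integrable a b 1 (continuous_const.mul hcF2))
  have b3 : ∀ {a b : ℝ}, (a = 0 ∨ a = -1) → (b = 0 ∨ b = -1) →
      ∫ z in Sq a b 1, phi0 z * rb ρ z = qs a b * ∫ z in Sq a b 1, Fq z * rb ρ z := by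
    intro a b ha hb
    rw [setIntegral_congr_fun (sq_meas a b 1) (b1 ha hb), integral_const_mul]
  have z0 : (0 : ℝ) = 0 ∨ (0 : ℝ) = -1 := Or.inl rfl
  have z1 : (-1 : ℝ) = 0 ∨ (-1 : ℝ) = -1 := Or.inr rfl
  rw [e1, e2, four_squares (a2 z1 z1) (a2 z0 z1) (a2 z1 z0) (a2 z0 z0),
    four_squares (b2 z1 z1) (b2 z0 z1) (b2 z1 z0) (b2 z0 z0), a3 z1 z1, a3 z0 z1, a3 z1 z0,
    a3 z0 z0, b3 z1 z1, b3 z0 z1, b3 z1 z0, b3 z0 z0, quad_kink hρ hρ1 z1 z1,
    quad_kink hρ hρ1 z0 z1, quad_kink hρ hρ1 z1 z0, quad_kink hρ hρ1 z0 z0]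
  have p1 := ax_int_pos hρ hρ1 z0 (v := I) (by simp)
  have p2 := ax_int_pos hρ hρ1 z1 (v := I) (by simp)
  have p3 := ax_int_pos hρ hρ1 z0 (v := 1) (by simp)
  have p4 := ax_int_pos hρ hρ1 z1 (v := 1) (by simp)
  unfold qs
  intro h
  norm_num at h p1 p2 p3 p4
  nlinarith

end Pool.Agent.H20.LE
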