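import Pool.Agent.H20.LE.Kink

/-!
# `phi0` is not a limit of functions vanishing on the diagonal near `0`
-/

open MeasureTheory Complex Set Filter Topology
open scoped ContDiff Laplacian ENNReal

namespace Pool.Agent.H20.LE

open Pool.Agent.H87.LE

lemma diag_ineq {φ : ℂ → ℝ} (hφ : ContDiff ℝ 1 φ) {a h : ℝ} (hh : 0 < h)
    (h0 : ∀ x ∈ Ico a (a + h), φ (x + x * I) = 0) :
    ∫ z in Sq a a h, φ z ^ 2 ≤ h ^ 2 * ∫ z in Sq a a h, ‖gradient φ z‖ ^ 2 := by
  have hd : Differentiable ℝ φ := hφ.differentiable (by norm_num)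
  have hcx := continuous_fderiv_apply hφ 1
  have hcy := continuous_fderiv_apply hφ I
  have hc : Continuous φ := hφ.continuous
  set B : ℝ → ℝ := fun x => ∫ s in a..a + h, fderiv ℝ φ (x + s * I) I ^ 2 with hB
  have hBc : Continuous B := by
    refine intervalIntegral.continuous_parametric_intervalIntegral_of_continuous' ?_ _ _
    fun_prop
  have e2 : ∫ z in Sq a a h, h * B z.re = h ^ 2 * ∫ z in Sq a a h, fderiv ℝ φ z I ^ 2 := by
    rw [sq_fubini' a a hh (by fun_prop), sq_fubini a a hh (by fun_prop)]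
    simp only [add_re, ofReal_re, mul_re, I_re, mul_zero, ofReal_im, I_im, mul_one, sub_self,
      add_zero]
    rw [intervalIntegral.integral_const, intervalIntegral.integral_const_mul]
    simp only [add_sub_cancel_left, smul_eq_mul]
    ring
  have e3 : ∫ z in Sq a a h, φ z ^ 2 ≤ ∫ z in Sq a a h, h * B z.re := by
    refine setIntegral_mono_on (sq_integrable a a h (by fun_prop))
      (sq_integrable a a h (by fun_prop)) (sq_meas a a h) fun z hz => ?_
    have hy := sq_diff_le (f := fun y : ℝ => φ (z.re + y * I))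
      (f' := fun y : ℝ => fderiv ℝ φ (z.re + y * I) I)
      (fun y => hasDerivAt_im hd z.re y) (by fun_prop) hh hz.2 hz.1
    rw [Complex.re_add_im, h0 z.re hz.1, sub_zero] at hy
    exact hy
  have e4 : ∫ z in Sq a a h, fderiv ℝ φ z I ^ 2 ≤ ∫ z in Sq a a h, ‖gradient φ z‖ ^ 2 := by
    refine setIntegral_mono_on (sq_integrable a a h (by fun_prop))
      (sq_integrable a a h ((continuous_grad hφ).norm.pow 2)) (sq_meas a a h) fun z _ => ?_
    rw [grad_sq]
    nlinarith [sq_nonneg (fderiv ℝ φ z 1)]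
  rw [e2] at e3
  refine e3.trans ?_
  gcongr

instance sq_fin (a b h : ℝ) : IsFiniteMeasure (volume.restrict (Sq a b h)) := by
  refine ⟨?_⟩
  rw [Measure.restrict_apply_univ]
  exact (sq_bdd a b h).measure_lt_top

lemma memLp_sq {E : Type*} [NormedAddCommGroup E] [SecondCountableTopology E] {f : ℂ → E}
    (hf : Continuous f) (a b h : ℝ) : MemLp f 2 (volume.restrict (Sq a b h)) := by
  obtain ⟨R, hR⟩ := (sq_bdd a b h).subset_closedBall 0
  obtain ⟨C, hC⟩ := (isCompact_closedBall (0 : ℂ) R).exists_bound_of_continuousOn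
    (f := f) hf.continuousOn
  refine MemLp.of_bound hf.aestronglyMeasurable C ?_
  filter_upwards [ae_restrict_mem (sq_meas a b h)] with z hz using hC z (hR hz)

lemma eLpNorm_le_of_integral {E F : Type*} [NormedAddCommGroup E] [NormedAddCommGroup F]
    {μ : Measure ℂ} {f : ℂ → E} {g : ℂ → F} (hf : MemLp f 2 μ) (hg : MemLp g 2 μ) {h : ℝ}
    (hh : 0 ≤ h) (hle : ∫ z, ‖f z‖ ^ 2 ∂μ ≤ h ^ 2 * ∫ z, ‖g z‖ ^ 2 ∂μ) :
    eLpNorm f 2 μ ≤ ENNReal.ofReal h * eLpNorm g 2 μ := by
  rw [hf.eLpNorm_eq_integral_rpow_norm (by norm_num) (by norm_num),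
    hg.eLpNorm_eq_integral_rpow_norm (by norm_num) (by norm_num), ← ENNReal.ofReal_mul hh]
  apply ENNReal.ofReal_le_ofReal
  have h1 : ENNReal.toReal 2 = 2 := by norm_num
  rw [h1]
  simp only [Real.rpow_two]
  have h2 : ∀ x : ℝ, 0 ≤ x → x ^ (2 : ℝ)⁻¹ = Real.sqrt x := fun x _ => by
    rw [Real.sqrt_eq_rpow]; norm_num
  rw [h2 _ (integral_nonneg fun _ => by positivity), h2 _ (integral_nonneg fun _ => by positivity)]
  refine (Real.sqrt_le_sqrt hle).trans (le_of_eq ?_)
  rw [Real.sqrt_mul (sq_nonneg h), Real.sqrt_sq hh]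

/-- closed square -/
def Ks (a : ℝ) : Set ℂ := {z | z.re ∈ Icc a (2 * a) ∧ z.im ∈ Icc a (2 * a)}

lemma Ks_compact (a : ℝ) : IsCompact (Ks a) := by
  have : Ks a = Icc a (2 * a) ×ℂ Icc a (2 * a) := by
    ext z; simp [Ks, Complex.mem_reProdIm]
  rw [this]
  exact isCompact_Icc.reProdIm isCompact_Icc

lemma Fq_pos {a : ℝ} (ha : 0 < a) (ha8 : a ≤ 1 / 8) {z : ℂ} (hz : z ∈ Ks a) : 0 < Fq z := by
  obtain ⟨⟨h1, h2⟩, h3, h4⟩ := hz
  have hpi := Real.pi_pos
  have s1 : 0 < Real.sin (Real.pi * z.re) :=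
    Real.sin_pos_of_pos_of_lt_pi (by nlinarith) (by nlinarith)
  have s2 : 0 < Real.sin (Real.pi * z.im) :=
    Real.sin_pos_of_pos_of_lt_pi (by nlinarith) (by nlinarith)
  have c1 : 0 < Real.cos (Real.pi * z.re) :=
    Real.cos_pos_of_mem_Ioo ⟨by nlinarith, by nlinarith⟩
  have c2 : 0 < Real.cos (Real.pi * z.im) :=
    Real.cos_pos_of_mem_Ioo ⟨by nlinarith, by nlinarith⟩
  rw [Fq_eq]
  unfold SS
  positivity

theorem phi0_not_limit' {r : ℝ} (hr : 0 < r) :
    ¬ ∃ φ : ℕ → ℂ → ℝ, (∀ n, Tst (DD \ star r) (φ n)) ∧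
    Tendsto (fun n => eLpNorm (fun z => φ n z - phi0 z) 2 (volume.restrict DD)) atTop (𝓝 0) ∧
    Tendsto (fun n => eLpNorm (fun z => gradient (φ n) z - gradient phi0 z) 2
      (volume.restrict DD)) atTop (𝓝 0) := by
  rintro ⟨φ, hT, hl1, hl2⟩
  set a : ℝ := min r 1 / 8 with hadef
  have hm : 0 < min r 1 := lt_min hr one_pos
  have ha : 0 < a := by positivity
  have har : 4 * a ≤ r := by have := min_le_left r 1; rw [hadef]; linarith
  have ha8 : a ≤ 1 / 8 := by have := min_le_right r 1; rw [hadef]; linarith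
  -- bounds on the compact square
  obtain ⟨z₀, hz₀, hmin⟩ := (Ks_compact a).exists_isMinOn
    ⟨a + a * I, by simp [Ks]; linarith⟩ (f := Fq) Fq_contDiff.continuous.continuousOn
  set c := Fq z₀ with hc
  have hc0 : 0 < c := Fq_pos ha ha8 hz₀
  have hgc : Continuous (gradient Fq) := continuous_grad (Fq_contDiff.of_le (by exact_mod_cast le_top))
  obtain ⟨C, hC⟩ := (Ks_compact a).exists_bound_of_continuousOn (f := gradient Fq) hgc.continuousOn
  have hC0 : 0 ≤ C := (norm_nonneg _).trans (hC z₀ hz₀)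
  -- choose the scale
  set h : ℝ := min a (c / (2 * (C + 1))) with hhdef
  have hh : 0 < h := lt_min ha (by positivity)
  have hha : h ≤ a := min_le_left _ _
  have hhC : h * C < c := by
    have h1 : h ≤ c / (2 * (C + 1)) := min_le_right _ _
    rw [le_div_iff₀ (by positivity)] at h1
    nlinarith
  set μ := volume.restrict (Sq a a h) with hμ
  have hsubK : Sq a a h ⊆ Ks a := fun z hz =>
    ⟨⟨hz.1.1, by linarith [hz.1.2]⟩, hz.2.1, by linarith [hz.2.2]⟩
  have hsubD : Sq a a h ⊆ DD := fun z hz => by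
    have h1 := hsubK hz
    exact ⟨abs_lt.2 ⟨by linarith [h1.1.1], by linarith [h1.1.2]⟩,
      abs_lt.2 ⟨by linarith [h1.2.1], by linarith [h1.2.2]⟩⟩
  have hSq0 : ∀ z ∈ Sq a a h, z ∈ Sq 0 0 1 := fun z hz => by
    have h1 := hsubK hz
    exact ⟨⟨by linarith [h1.1.1], by linarith [h1.1.2]⟩, ⟨by linarith [h1.2.1],
      by linarith [h1.2.2]⟩⟩
  have hq : qs 0 0 = 1 := by unfold qs; norm_num
  have hphi : ∀ z ∈ Sq a a h, phi0 z = Fq z := fun z hz => by
    rw [phi0_on (Or.inl rfl) (Or.inl rfl) (hSq0 z hz), hq, one_mul]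
  have hgphi : ∀ z ∈ Sq a a h, gradient phi0 z = gradient Fq z := fun z hz => by
    have h1 := hsubK hz
    obtain ⟨g1, g2⟩ := sg_open (Or.inl rfl) (Or.inl rfl) (hSq0 z hz)
      (by linarith [h1.1.1] : z.re ≠ 0) (by linarith [h1.2.1] : z.im ≠ 0)
    have h3 : phi0 =ᶠ[𝓝 z] fun w => sg z * Fq w := by
      filter_upwards [sg_loc g2] with w hw
      rw [phi0_eq w, hw]
    rw [grad_congr h3, grad_const_mul (Fq_diff z), g1, hq]
    simp
  -- the inequality for the approximations
  have hφ1 : ∀ n, ContDiff ℝ 1 (φ n) := fun n => (hT n).1.of_le (by exact_mod_cast le_top)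
  have hstep : ∀ n, eLpNorm (φ n) 2 μ ≤ ENNReal.ofReal h * eLpNorm (gradient (φ n)) 2 μ := by
    intro n
    refine eLpNorm_le_of_integral (memLp_sq (hφ1 n).continuous a a h)
      (memLp_sq (continuous_grad (hφ1 n)) a a h) hh.le ?_
    simp only [Real.norm_eq_abs, sq_abs]
    refine diag_ineq (hφ1 n) hh fun x hx => ?_
    refine image_eq_zero_of_notMem_tsupport fun hmem => ((hT n).2.2 hmem).2 ?_
    refine ⟨?_, ?_⟩
    · simp [Mir]
    · refine (Complex.norm_le_abs_re_add_abs_im _).trans ?_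
      have hx0 : 0 ≤ x := by linarith [hx.1]
      simp only [add_re, ofReal_re, mul_re, I_re, mul_zero, ofReal_im, I_im, mul_one, sub_self,
        add_zero, add_im, mul_im, zero_add]
      rw [abs_of_nonneg hx0]
      linarith [hx.2]
  -- restrict the convergence
  have hrm : ∀ {E : Type} [NormedAddCommGroup E] (f : ℂ → E),
      eLpNorm f 2 μ ≤ eLpNorm f 2 (volume.restrict DD) := fun f =>
    eLpNorm_mono_measure f (Measure.restrict_mono hsubD le_rfl)
  have hl1' : Tendsto (fun n => eLpNorm (fun z => φ n z - Fq z) 2 μ) atTop (𝓝 0) := by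
    refine tendsto_of_tendsto_of_tendsto_of_le_of_le tendsto_const_nhds hl1 (fun _ => zero_le)
      fun n => ?_
    refine le_trans (le_of_eq ?_) (hrm _)
    refine eLpNorm_congr_ae ?_
    filter_upwards [ae_restrict_mem (sq_meas a a h)] with z hz
    rw [hphi z hz]
  have hl2' : Tendsto (fun n => eLpNorm (fun z => gradient (φ n) z - gradient Fq z) 2 μ) atTop
      (𝓝 0) := by
    refine tendsto_of_tendsto_of_tendsto_of_le_of_le tendsto_const_nhds hl2 (fun _ => zero_le)
      fun n => ?_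
    refine le_trans (le_of_eq ?_) (hrm _)
    refine eLpNorm_congr_ae ?_
    filter_upwards [ae_restrict_mem (sq_meas a a h)] with z hz
    rw [hgphi z hz]
  have hlim : eLpNorm Fq 2 μ ≤ ENNReal.ofReal h * eLpNorm (gradient Fq) 2 μ := by
    have hn : ∀ n, eLpNorm Fq 2 μ ≤ eLpNorm (fun z => φ n z - Fq z) 2 μ + ENNReal.ofReal h *
        (eLpNorm (fun z => gradient (φ n) z - gradient Fq z) 2 μ + eLpNorm (gradient Fq) 2 μ) := by
      intro n
      have m1 : AEStronglyMeasurable Fq μ := Fq_contDiff.continuous.aestronglyMeasurable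
      have m2 : AEStronglyMeasurable (φ n) μ := (hφ1 n).continuous.aestronglyMeasurable
      have m3 : AEStronglyMeasurable (gradient Fq) μ := hgc.aestronglyMeasurable
      have m4 : AEStronglyMeasurable (gradient (φ n)) μ :=
        (continuous_grad (hφ1 n)).aestronglyMeasurable
      have t1 : eLpNorm Fq 2 μ ≤ eLpNorm (fun z => φ n z - Fq z) 2 μ + eLpNorm (φ n) 2 μ := by
        have h1 : Fq = φ n - fun z => φ n z - Fq z := by funext z; simp
        calc eLpNorm Fq 2 μ = eLpNorm (φ n - fun z => φ n z - Fq z) 2 μ := by rw [← h1]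
          _ ≤ eLpNorm (φ n) 2 μ + eLpNorm (fun z => φ n z - Fq z) 2 μ :=
            eLpNorm_sub_le m2 (m2.sub m1) (by norm_num)
          _ = _ := add_comm _ _
      have t2 : eLpNorm (gradient (φ n)) 2 μ ≤
          eLpNorm (fun z => gradient (φ n) z - gradient Fq z) 2 μ + eLpNorm (gradient Fq) 2 μ := by
        have h1 : gradient (φ n) = (fun z => gradient (φ n) z - gradient Fq z) + gradient Fq := by
          funext z; simp
        calc eLpNorm (gradient (φ n)) 2 μ =
            eLpNorm ((fun z => gradient (φ n) z - gradient Fq z) + gradient Fq) 2 μ := by rw [← h1]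
          _ ≤ _ := eLpNorm_add_le (m4.sub m3) m3 (by norm_num)
      exact t1.trans (add_le_add le_rfl ((hstep n).trans (mul_le_mul_right t2 _)))
    have hL : Tendsto (fun n => eLpNorm (fun z => φ n z - Fq z) 2 μ + ENNReal.ofReal h *
        (eLpNorm (fun z => gradient (φ n) z - gradient Fq z) 2 μ + eLpNorm (gradient Fq) 2 μ)) atTop
        (𝓝 (0 + ENNReal.ofReal h * (0 + eLpNorm (gradient Fq) 2 μ))) :=
      hl1'.add (ENNReal.Tendsto.const_mul (hl2'.add tendsto_const_nhds)
        (Or.inr ENNReal.ofReal_ne_top))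
    rw [zero_add, zero_add] at hL
    exact ge_of_tendsto' hL hn
  -- contradiction
  have hlow : ‖c‖ₑ * μ univ ^ (1 / ENNReal.toReal 2) ≤ eLpNorm Fq 2 μ := by
    rw [← eLpNorm_const' c (by norm_num) (by norm_num)]
    refine eLpNorm_mono_ae ?_
    filter_upwards [ae_restrict_mem (sq_meas a a h)] with z hz
    have h1 : c ≤ Fq z := hmin (hsubK hz)
    rw [Real.norm_of_nonneg hc0.le, Real.norm_of_nonneg (hc0.le.trans h1)]
    exact h1
  have hup : eLpNorm (gradient Fq) 2 μ ≤ ‖C‖ₑ * μ univ ^ (1 / ENNReal.toReal 2) := by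
    rw [← eLpNorm_const' C (by norm_num) (by norm_num)]
    refine eLpNorm_mono_ae ?_
    filter_upwards [ae_restrict_mem (sq_meas a a h)] with z hz
    rw [Real.norm_of_nonneg hC0]
    exact hC z (hsubK hz)
  have hM0 : μ univ ^ (1 / ENNReal.toReal 2) ≠ 0 := by
    have h1 := sq_vol a a hh
    have h2 : μ univ ≠ 0 := by
      intro h2
      rw [measureReal_def, ← hμ, h2] at h1
      simp at h1
      nlinarith
    simp [h2, ENNReal.rpow_eq_zero_iff]
  have hMt : μ univ ^ (1 / ENNReal.toReal 2) ≠ ⊤ :=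
    ENNReal.rpow_ne_top_of_nonneg (by positivity) (measure_ne_top _ _)
  have hfin : ‖c‖ₑ * μ univ ^ (1 / ENNReal.toReal 2) ≤
      (ENNReal.ofReal h * ‖C‖ₑ) * μ univ ^ (1 / ENNReal.toReal 2) := by
    refine hlow.trans (hlim.trans ?_)
    rw [mul_assoc]
    exact mul_le_mul_right hup _
  have hfin2 := (ENNReal.mul_le_mul_iff_left hM0 hMt).1 hfin
  rw [Real.enorm_of_nonneg hc0.le, Real.enorm_of_nonneg hC0, ← ENNReal.ofReal_mul hh.le,
    ENNReal.ofReal_le_ofReal_iff (by positivity)] at hfin2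
  linarith

end Pool.Agent.H20.LE
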