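import Pool.Agent.H20.LE.Cpt

/-!
# Product functions and their weak equations
-/

open MeasureTheory Complex Set Filter Topology
open scoped ContDiff Laplacian

namespace Pool.Agent.H20.LE

lemma hasFDerivAt_prod {p q : ℝ → ℝ} {p' q' : ℝ} {z : ℂ} (hp : HasDerivAt p p' z.re)
    (hq : HasDerivAt q q' z.im) :
    HasFDerivAt (fun z : ℂ => p z.re * q z.im)
      (p z.re • (q' • Complex.imCLM) + q z.im • (p' • Complex.reCLM)) z := by
  have h1 : HasFDerivAt (fun z : ℂ => p z.re) (p' • Complex.reCLM) z := by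
    have := hp.comp_hasFDerivAt z (Complex.reCLM.hasFDerivAt (x := z))
    exact this
  have h2 : HasFDerivAt (fun z : ℂ => q z.im) (q' • Complex.imCLM) z := by
    have := hq.comp_hasFDerivAt z (Complex.imCLM.hasFDerivAt (x := z))
    exact this
  exact h1.mul h2

lemma fderiv_prod_one {p q : ℝ → ℝ} {p' q' : ℝ} {z : ℂ} (hp : HasDerivAt p p' z.re)
    (hq : HasDerivAt q q' z.im) : fderiv ℝ (fun z : ℂ => p z.re * q z.im) z 1 = p' * q z.im := by
  rw [(hasFDerivAt_prod hp hq).fderiv]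
  simp [mul_comm]

lemma fderiv_prod_I {p q : ℝ → ℝ} {p' q' : ℝ} {z : ℂ} (hp : HasDerivAt p p' z.re)
    (hq : HasDerivAt q q' z.im) : fderiv ℝ (fun z : ℂ => p z.re * q z.im) z I = p z.re * q' := by
  rw [(hasFDerivAt_prod hp hq).fderiv]
  simp

/-- `sin (a x) sin (b y)` -/
noncomputable def SS (a b : ℝ) (z : ℂ) : ℝ := Real.sin (a * z.re) * Real.sin (b * z.im)

lemma hasDerivAt_lin (a x : ℝ) : HasDerivAt (fun x : ℝ => a * x) a x := by
  simpa using (hasDerivAt_id x).const_mul a

lemma hasDerivAt_sin_mul (a x : ℝ) :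
    HasDerivAt (fun x => Real.sin (a * x)) (a * Real.cos (a * x)) x := by
  have := (hasDerivAt_lin a x).sin
  rwa [mul_comm] at this

lemma hasDerivAt_cos_mul (a x : ℝ) :
    HasDerivAt (fun x => a * Real.cos (a * x)) (-(a ^ 2 * Real.sin (a * x))) x := by
  have := ((hasDerivAt_lin a x).cos).const_mul a
  have h : a * (-Real.sin (a * x) * a) = -(a ^ 2 * Real.sin (a * x)) := by ring
  rwa [h] at this

lemma SS_contDiff (a b : ℝ) : ContDiff ℝ ∞ (SS a b) := by
  unfold SS
  have h1 : ContDiff ℝ ∞ (fun z : ℂ => z.re) := Complex.reCLM.contDiff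
  have h2 : ContDiff ℝ ∞ (fun z : ℂ => z.im) := Complex.imCLM.contDiff
  exact (Real.contDiff_sin.comp (contDiff_const.mul h1)).mul
    (Real.contDiff_sin.comp (contDiff_const.mul h2))

lemma SS_dx (a b : ℝ) (z : ℂ) :
    fderiv ℝ (SS a b) z 1 = a * Real.cos (a * z.re) * Real.sin (b * z.im) :=
  fderiv_prod_one (p := fun x => Real.sin (a * x)) (q := fun y => Real.sin (b * y))
    (hasDerivAt_sin_mul a z.re) (hasDerivAt_sin_mul b z.im)

lemma SS_dy (a b : ℝ) (z : ℂ) :
    fderiv ℝ (SS a b) z I = Real.sin (a * z.re) * (b * Real.cos (b * z.im)) :=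
  fderiv_prod_I (p := fun x => Real.sin (a * x)) (q := fun y => Real.sin (b * y))
    (hasDerivAt_sin_mul a z.re) (hasDerivAt_sin_mul b z.im)

lemma SS_dxx (a b : ℝ) (z : ℂ) :
    fderiv ℝ (fun z => fderiv ℝ (SS a b) z 1) z 1 = -(a ^ 2 * SS a b z) := by
  simp_rw [SS_dx]
  rw [fderiv_prod_one (p := fun x => a * Real.cos (a * x)) (q := fun y => Real.sin (b * y))
    (hasDerivAt_cos_mul a z.re) (hasDerivAt_sin_mul b z.im)]
  unfold SS
  ring

lemma SS_dyy (a b : ℝ) (z : ℂ) :
    fderiv ℝ (fun z => fderiv ℝ (SS a b) z I) z I = -(b ^ 2 * SS a b z) := by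
  simp_rw [SS_dy]
  rw [fderiv_prod_I (p := fun x => Real.sin (a * x)) (q := fun y => b * Real.cos (b * y))
    (hasDerivAt_sin_mul a z.re) (hasDerivAt_cos_mul b z.im)]
  unfold SS
  ring

lemma inner_grad (f g : ℂ → ℝ) (z : ℂ) :
    inner ℝ (gradient f z) (gradient g z) =
      fderiv ℝ f z 1 * fderiv ℝ g z 1 + fderiv ℝ f z I * fderiv ℝ g z I := by
  rw [Complex.inner, Complex.mul_re, Complex.conj_re, Complex.conj_im, grad_re, grad_re, grad_im,
    grad_im]
  ring

/-- integration by parts against a test function -/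
lemma parts {f φ : ℂ → ℝ} (hf : ContDiff ℝ ∞ f) (hφ : ContDiff ℝ ∞ φ)
    (hc : HasCompactSupport φ) (v : ℂ) :
    ∫ z, fderiv ℝ f z v * fderiv ℝ φ z v =
      - ∫ z, fderiv ℝ (fun w => fderiv ℝ f w v) z v * φ z := by
  have h1 : ContDiff ℝ ∞ (fun w => fderiv ℝ f w v) :=
    (hf.fderiv_right (m := ∞) (by simp)).clm_apply contDiff_const
  have h2 : Continuous fun z => fderiv ℝ φ z v :=
    continuous_fderiv_apply (hφ.of_le (by exact_mod_cast le_top)) v
  have h3 : Continuous fun z => fderiv ℝ (fun w => fderiv ℝ f w v) z v :=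
    continuous_fderiv_apply (h1.of_le (by exact_mod_cast le_top)) v
  have hc' : HasCompactSupport fun z => fderiv ℝ φ z v := hc.fderiv_apply ℝ v
  refine integral_mul_fderiv_eq_neg_fderiv_mul_of_integrable ?_ ?_ ?_
    (fun z _ => (h1.differentiable (by simp)) z) (fun z _ => (hφ.differentiable (by simp)) z)
  · exact (h3.mul hφ.continuous).integrable_of_hasCompactSupport hc.mul_left
  · exact (h1.continuous.mul h2).integrable_of_hasCompactSupport hc'.mul_left
  · exact (h1.continuous.mul hφ.continuous).integrable_of_hasCompactSupport hc.mul_left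

/-- weak form of `-Δ f = c f` -/
lemma weak_eq {f φ : ℂ → ℝ} (hf : ContDiff ℝ ∞ f) {c : ℝ}
    (he : ∀ z, fderiv ℝ (fun w => fderiv ℝ f w 1) z 1 + fderiv ℝ (fun w => fderiv ℝ f w I) z I =
      -(c * f z)) (hφ : ContDiff ℝ ∞ φ) (hc : HasCompactSupport φ) :
    ∫ z, inner ℝ (gradient f z) (gradient φ z) = c * ∫ z, f z * φ z := by
  have hd : ∀ v : ℂ, ContDiff ℝ ∞ (fun w => fderiv ℝ f w v) := fun v =>
    (hf.fderiv_right (m := ∞) (by simp)).clm_apply contDiff_const
  have hdd : ∀ v : ℂ, Continuous fun z => fderiv ℝ (fun w => fderiv ℝ f w v) z v := fun v =>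
    continuous_fderiv_apply ((hd v).of_le (by exact_mod_cast le_top)) v
  have hdφ : ∀ v : ℂ, Continuous fun z => fderiv ℝ φ z v := fun v =>
    continuous_fderiv_apply (hφ.of_le (by exact_mod_cast le_top)) v
  have hint : ∀ v : ℂ, Integrable fun z => fderiv ℝ f z v * fderiv ℝ φ z v := fun v =>
    ((hd v).continuous.mul (hdφ v)).integrable_of_hasCompactSupport (hc.fderiv_apply ℝ v).mul_left
  have hint2 : ∀ v : ℂ, Integrable fun z => fderiv ℝ (fun w => fderiv ℝ f w v) z v * φ z :=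
    fun v => ((hdd v).mul hφ.continuous).integrable_of_hasCompactSupport hc.mul_left
  simp_rw [inner_grad]
  rw [integral_add (hint 1) (hint I), parts hf hφ hc 1, parts hf hφ hc I, ← neg_add,
    ← integral_add (hint2 1) (hint2 I), ← integral_neg, ← integral_const_mul]
  refine integral_congr_ae (Eventually.of_forall fun z => ?_)
  simp only
  rw [← add_mul, he z]
  ring

end Pool.Agent.H20.LE
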